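import Pool.Agent.U674.HF.Hopf

/-!
# Hopfian integral group rings: central extensions of unique product groups by torsion groups

Let `T` be a central subgroup of `G` all of whose elements have finite order, and let `G ⧸ T` be a
unique product group. Then `ℤ[G]` is a Hopfian ring if and only if `G` is a Hopfian group. This covers
all abelian groups, all right orderable groups, and their central extensions by torsion groups; no
finiteness assumption is made.

Proof. (1) The trace at `1` shows that `ℤ[T]` is reduced, has no idempotents but `0` and `1`, and that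
its units of finite order are `±t`. (2) Reduction modulo the prime ideals of `ℤ[T]` and two unique
products show that every unit of `ℤ[G]` is a unit of `ℤ[T]` times an element of `G`. (3) Let `φ` be a
surjective endomorphism; after a sign change it preserves the augmentation. Write
`φ(g) = v(g) k(g)`, `v(g)` a unit of `ℤ[T]`, and put `D(∑ c_t t) = ∏ t^{c_t}`, `θ(g) = D(v(g)) k(g)`.
This is an endomorphism of `G`, and `φ(g) = w(g) θ(g)` with `D(w(g)) = 1`. Additive maps from `ℤ[G]` to
`ℤ` and to `G ⧸ θ(G)` which vanish on the image of `φ` show that `θ` is surjective. (4) If `θ` is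
bijective, `φ ∘ θ⁻¹` sends `g` to `w₁(g) g`; `w₁` is trivial on `T` by (1), so this map multiplies the
coefficients in `ℤ[T]` of an element of `ℤ[G]` by units, and it is injective.
-/

set_option autoImplicit false

namespace Pool.Agent.Results.MP_836a1f_al.HopfianCentral

open MonoidAlgebra Pool.U674.HF

universe u

theorem hopfian_of_ring {G : Type u} [Group G]
    (h : ∀ φ : MonoidAlgebra ℤ G →+* MonoidAlgebra ℤ G,
      Function.Surjective φ → Function.Injective φ) :
    ∀ f : G →* G, Function.Surjective f → Function.Injective f := by
  intro f hf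
  have hs : Function.Surjective (MonoidAlgebra.mapDomainRingHom ℤ f) := by
    intro x
    refine MonoidAlgebra.induction_linear x ⟨0, map_zero _⟩ ?_ ?_
    · rintro a b ⟨a', rfl⟩ ⟨b', rfl⟩
      exact ⟨a' + b', map_add _ _ _⟩
    · intro g n
      obtain ⟨g', rfl⟩ := hf g
      exact ⟨single g' n, by simp⟩
  intro a b hab
  have h1 := h _ hs (a₁ := single a 1) (a₂ := single b 1) (by simp [hab])
  exact (single_left_inj one_ne_zero).1 h1

theorem central {G : Type u} [Group G] (T : Subgroup G) [T.Normal]
    (hT : T ≤ Subgroup.center G) (htor : ∀ t ∈ T, IsOfFinOrder t) (hU : UniqueProds (G ⧸ T))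
    (hG : ∀ f : G →* G, Function.Surjective f → Function.Injective f) :
    ∀ φ : MonoidAlgebra ℤ G →+* MonoidAlgebra ℤ G,
      Function.Surjective φ → Function.Injective φ := by
  let _ : CommGroup T :=
    { (inferInstance : Group T) with
      mul_comm := fun a b => Subtype.ext ((Subgroup.mem_center_iff.1 (hT a.2) b.1).symm) }
  have : TwoUniqueProds (G ⧸ T) := UniqueProds.toTwoUniqueProds_of_group
  have hce : CE (T.subtype) (QuotientGroup.mk' T) :=
    { inj := Subtype.val_injective
      cen := fun t g => (Subgroup.mem_center_iff.1 (hT t.2) g).symm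
      surj := QuotientGroup.mk'_surjective T
      ker := fun g => by
        rw [QuotientGroup.mk'_apply, QuotientGroup.eq_one_iff]
        exact ⟨fun h => ⟨⟨g, h⟩, rfl⟩, fun ⟨t, ht⟩ => ht ▸ t.2⟩ }
  intro φ hφ
  refine main hce (fun t => ?_) hG hφ
  obtain ⟨n, hn, hn'⟩ := (isOfFinOrder_iff_pow_eq_one.1 (htor t.1 t.2))
  exact ⟨n, hn, Subtype.ext hn'⟩

/-- Torsion-free abelian groups are unique product groups. -/
theorem uniqueProds_of_torsionFree {Q : Type u} [CommGroup Q] [IsMulTorsionFree Q] :
    UniqueProds Q := by
  have h1 : TwoUniqueSums (DivisibleHull (Additive Q)) := inferInstance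
  have h2 : TwoUniqueSums (Additive Q) :=
    TwoUniqueSums.of_injective_addHom (DivisibleHull.coeAddMonoidHom (Additive Q)).toAddHom
      (DivisibleHull.coe_injective (M := Additive Q)) h1
  have h3 : TwoUniqueProds (Multiplicative (Additive Q)) := inferInstance
  have h4 : TwoUniqueProds Q := h3
  infer_instance

/-- 1. Let `T` be a central subgroup of `G` consisting of elements of finite order such that `G ⧸ T` is a
unique product group (`UniqueProds`: for any two nonempty finite subsets `A`, `B` some element of the
quotient has exactly one expression `a * b`, `a ∈ A`, `b ∈ B`). Then `G` is Hopfian if and only if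
`ℤ[G]` is a Hopfian ring.
2. An abelian group `G` is Hopfian if and only if `ℤ[G]` is a Hopfian ring. -/
theorem result :
    (∀ (G : Type u) [Group G] (T : Subgroup G) [T.Normal], T ≤ Subgroup.center G →
      (∀ t ∈ T, IsOfFinOrder t) → UniqueProds (G ⧸ T) →
      ((∀ f : G →* G, Function.Surjective f → Function.Injective f) ↔
        ∀ φ : MonoidAlgebra ℤ G →+* MonoidAlgebra ℤ G,
          Function.Surjective φ → Function.Injective φ)) ∧
    (∀ (G : Type u) [CommGroup G],
      ((∀ f : G →* G, Function.Surjective f → Function.Injective f) ↔
        ∀ φ : MonoidAlgebra ℤ G →+* MonoidAlgebra ℤ G,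
          Function.Surjective φ → Function.Injective φ)) := by
  refine ⟨fun G _ T _ hT htor hU => ⟨central T hT htor hU, hopfian_of_ring⟩,
    fun G _ => ⟨?_, hopfian_of_ring⟩⟩
  refine central (CommGroup.torsion G) ?_ (fun t ht => ht) uniqueProds_of_torsionFree
  intro t _
  exact Subgroup.mem_center_iff.2 fun g => mul_comm _ _

end Pool.Agent.Results.MP_836a1f_al.HopfianCentral
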